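import Pool.Agent.N600.L3.Stm

/-!
# Project L3 (helper600): NOIF, multiplicative noise for algebraic units

By helper711.
-/

set_option autoImplicit false

namespace Pool.Agent.N711.L3

open Pool.Agent.N600.L3

universe u

theorem t_noif (h1 : S_NOI.{u}) (h2 : S_LAT.{u}) : S_NOIF.{u} := by
  intro F _ _ R t S _ _ σ ht hti hσ
  classical
  obtain ⟨s0, hs0⟩ : ∃ s0 : Set F, s0 = ({(t : F)} ∪ Set.range fun s => (σ s : F)) ∪
      Set.range fun s => (((σ s)⁻¹ : Fˣ) : F) := ⟨_, rfl⟩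
  have hfin : s0.Finite := by
    rw [hs0]
    exact ((Set.finite_singleton _).union (Set.finite_range _)).union (Set.finite_range _)
  have hint : ∀ x ∈ s0, IsIntegral ℤ x := by
    rw [hs0]
    rintro x ((hx | ⟨s, rfl⟩) | ⟨s, rfl⟩)
    · rw [Set.mem_singleton_iff.1 hx]
      exact ht
    · exact (hσ s).1
    · exact (hσ s).2
  have m1 : (t : F) ∈ Algebra.adjoin ℤ s0 := Algebra.subset_adjoin (by
    rw [hs0]
    exact Or.inl (Or.inl rfl))
  have m3 : ∀ s, (σ s : F) ∈ Algebra.adjoin ℤ s0 := fun s => Algebra.subset_adjoin (by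
    rw [hs0]
    exact Or.inl (Or.inr ⟨s, rfl⟩))
  have m4 : ∀ s, (((σ s)⁻¹ : Fˣ) : F) ∈ Algebra.adjoin ℤ s0 := fun s => Algebra.subset_adjoin (by
    rw [hs0]
    exact Or.inr ⟨s, rfl⟩)
  obtain ⟨t', ht'⟩ : ∃ t' : Algebra.adjoin ℤ s0, (t' : F) = t := ⟨⟨t, m1⟩, rfl⟩
  obtain ⟨σ', hσ'⟩ : ∃ σ' : S → (Algebra.adjoin ℤ s0)ˣ,
      ∀ s, ((σ' s : Algebra.adjoin ℤ s0) : F) = σ s :=
    ⟨fun s => ⟨⟨σ s, m3 s⟩, ⟨(((σ s)⁻¹ : Fˣ) : F), m4 s⟩, Subtype.ext (by simp),
      Subtype.ext (by simp)⟩, fun s => rfl⟩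
  obtain ⟨Z, hZ⟩ : ∃ Z : Set F, Z = (Set.range fun g : Fin R → Bool × Bool × Bool =>
      ∑ r : Fin R, (t : F) ^ (r : ℕ) * ((ee (g r) : ℤ) : F)) \ {0} := ⟨_, rfl⟩
  have hyO : ∀ g : Fin R → Bool × Bool × Bool, ∃ y : Algebra.adjoin ℤ s0,
      (y : F) = ∑ r : Fin R, (t : F) ^ (r : ℕ) * ((ee (g r) : ℤ) : F) ∧
      y = ∑ r : Fin R, t' ^ (r : ℕ) * ((ee (g r) : ℤ) : Algebra.adjoin ℤ s0) := by
    intro g
    refine ⟨_, ?_, rfl⟩
    push_cast
    rw [ht']
  have hZfin : Z.Finite := by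
    rw [hZ]
    exact (Set.finite_range _).subset Set.sdiff_subset
  have hZ0 : (0 : F) ∉ Z := by
    rw [hZ]
    exact fun h => h.2 rfl
  have hZsub : Z ⊆ (Algebra.adjoin ℤ s0 : Set F) := by
    rw [hZ]
    rintro _ ⟨⟨g, rfl⟩, -⟩
    obtain ⟨y, hy, -⟩ := hyO g
    beta_reduce
    rw [← hy]
    exact y.2
  obtain ⟨A, _, _, π, hπ⟩ := h2 F s0 hfin hint Z hZfin hZ0 hZsub
  have key := h1 A R (fun r => π t' ^ (r : ℕ)) S (fun s => Units.map (π : _ →* A) (σ' s))
  have hL : Nat.card {f : Fin R → S × Bool × Bool //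
      ∑ r : Fin R, (t : F) ^ (r : ℕ) * (σ (f r).1 : F) *
        ((if (f r).2.1 then 1 else 0) - (if (f r).2.2 then 1 else 0)) = 0} ≤
      Nat.card {f : Fin R → S × Bool × Bool //
        ∑ r : Fin R, π t' ^ (r : ℕ) * ((Units.map (π : _ →* A) (σ' (f r).1) : Aˣ) : A) *
        ((if (f r).2.1 then 1 else 0) - (if (f r).2.2 then 1 else 0)) = 0} := by
    have hsub : ∀ f : Fin R → S × Bool × Bool,
        ∑ r : Fin R, (t : F) ^ (r : ℕ) * (σ (f r).1 : F) *
          ((if (f r).2.1 then 1 else 0) - (if (f r).2.2 then 1 else 0)) = 0 →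
        ∑ r : Fin R, π t' ^ (r : ℕ) * ((Units.map (π : _ →* A) (σ' (f r).1) : Aˣ) : A) *
          ((if (f r).2.1 then 1 else 0) - (if (f r).2.2 then 1 else 0)) = 0 := by
      intro f hf
      obtain ⟨y, hy⟩ : ∃ y : Algebra.adjoin ℤ s0,
          y = ∑ r : Fin R, t' ^ (r : ℕ) * (σ' (f r).1 : Algebra.adjoin ℤ s0) *
            ((if (f r).2.1 then 1 else 0) - (if (f r).2.2 then 1 else 0)) := ⟨_, rfl⟩
      have hy0 : y = 0 := by
        apply Subtype.ext
        rw [hy]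
        push_cast
        rw [ht']
        simp only [hσ']
        refine Eq.trans (Finset.sum_congr rfl fun r _ => ?_) hf
        congr 1
        split_ifs <;> simp
      have hy1 : π y = 0 := by rw [hy0, map_zero]
      rw [hy, map_sum] at hy1
      refine Eq.trans (Finset.sum_congr rfl fun r _ => ?_) hy1
      rw [map_mul, map_mul, map_pow, map_sub]
      congr 1
      split_ifs <;> simp
    exact Nat.card_le_card_of_injective (Subtype.map id hsub)
      (Subtype.map_injective hsub Function.injective_id)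
  have hR : Nat.card {g : Fin R → Bool × Bool × Bool //
      ∑ r : Fin R, π t' ^ (r : ℕ) * ((ee (g r) : ℤ) : A) = 0} ≤
      Nat.card {g : Fin R → Bool × Bool × Bool //
        ∑ r : Fin R, (t : F) ^ (r : ℕ) * ((ee (g r) : ℤ) : F) = 0} := by
    have hsub : ∀ g : Fin R → Bool × Bool × Bool,
        ∑ r : Fin R, π t' ^ (r : ℕ) * ((ee (g r) : ℤ) : A) = 0 →
        ∑ r : Fin R, (t : F) ^ (r : ℕ) * ((ee (g r) : ℤ) : F) = 0 := by
      intro g hg
      by_contra hcon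
      obtain ⟨y, hy, hy2⟩ := hyO g
      have h3 : (y : F) ∈ Z := by
        rw [hZ, hy]
        exact ⟨⟨g, rfl⟩, hcon⟩
      have h4 := hπ (y : F) y.2 h3
      apply h4
      change π y = 0
      rw [hy2, map_sum, ← hg]
      refine Finset.sum_congr rfl fun r _ => ?_
      rw [map_mul, map_pow, map_intCast]
    exact Nat.card_le_card_of_injective (Subtype.map id hsub)
      (Subtype.map_injective hsub Function.injective_id)
  calc 8 ^ R * Nat.card {f : Fin R → S × Bool × Bool //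
      ∑ r : Fin R, (t : F) ^ (r : ℕ) * (σ (f r).1 : F) *
        ((if (f r).2.1 then 1 else 0) - (if (f r).2.2 then 1 else 0)) = 0} ≤ _ :=
        Nat.mul_le_mul_left _ hL
    _ ≤ _ := key
    _ ≤ _ := Nat.mul_le_mul_left _ hR

end Pool.Agent.N711.L3
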